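import Pool.Agent.H211.HY.Stm1

/-!
# Following the orbit of a critical value
-/

set_option autoImplicit false

open Topology Filter Metric Set MeasureTheory Polynomial

namespace Pool.Agent.H720.HY211

open Pool.Agent.H211.HY

/-- Taylor estimate of the second order -/
lemma taylor2 {E : Type*} [NormedAddCommGroup E] [NormedSpace ℂ E] (g : E → ℂ) (ρ C : ℝ)
    (hρ : 0 < ρ) (hg : DifferentiableOn ℂ g (ball 0 ρ)) (hC : ∀ s ∈ ball (0 : E) ρ, ‖g s‖ ≤ C)
    (s : E) (hs : s ∈ ball (0 : E) ρ) :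
    ‖g s - g 0 - fderiv ℂ g 0 s‖ ≤ (2 * (2 * C + 1) / ρ + 1) / ρ * ‖s‖ ^ 2 := by
  by_cases hs0 : s = 0
  · subst hs0; simp
  have hns : 0 < ‖s‖ := norm_pos_iff.2 hs0
  have hsρ : ‖s‖ < ρ := by simpa using hs
  set R : ℝ := ρ / ‖s‖ with hR
  have hR1 : 1 < R := (one_lt_div hns).2 hsρ
  have hR0 : 0 < R := by linarith
  set φ : ℂ → ℂ := fun t => g (t • s) with hφ
  have hmem : ∀ t ∈ ball (0 : ℂ) R, t • s ∈ ball (0 : E) ρ := by
    intro t ht
    rw [mem_ball_zero_iff] at ht ⊢
    rw [norm_smul]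
    rwa [hR, lt_div_iff₀ hns] at ht
  have hφd : DifferentiableOn ℂ φ (ball 0 R) := by
    apply DifferentiableOn.comp hg _ hmem
    exact (differentiable_id.smul_const s).differentiableOn
  have h0mem : (0 : ℂ) ∈ ball (0 : ℂ) R := mem_ball_self hR0
  have h1mem : (1 : ℂ) ∈ ball (0 : ℂ) R := by simpa using hR1
  have hφ0 : φ 0 = g 0 := by simp [hφ]
  have hφb : ∀ t ∈ ball (0 : ℂ) R, ‖φ t‖ ≤ C := fun t ht => hC _ (hmem t ht)
  have hmap : MapsTo φ (ball 0 R) (ball (φ 0) (2 * C + 1)) := by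
    intro t ht
    rw [mem_ball, dist_eq_norm]
    have h1 := norm_sub_le (φ t) (φ 0)
    have h2 := hφb t ht
    have h3 := hφb 0 h0mem
    linarith
  have h1 : ∀ t ∈ ball (0 : ℂ) R, ‖dslope φ 0 t‖ ≤ (2 * C + 1) / R := fun t ht =>
    Complex.norm_dslope_le_div_of_mapsTo_ball hφd (hmap.mono_right ball_subset_closedBall) ht
  have hd : DifferentiableOn ℂ (dslope φ 0) (ball 0 R) :=
    (Complex.differentiableOn_dslope (isOpen_ball.mem_nhds h0mem)).2 hφd
  have hmap2 : MapsTo (dslope φ 0) (ball 0 R)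
      (ball (dslope φ 0 0) (2 * ((2 * C + 1) / R) + ‖s‖)) := by
    intro t ht
    rw [mem_ball, dist_eq_norm]
    have h2 := norm_sub_le (dslope φ 0 t) (dslope φ 0 0)
    have h3 := h1 t ht
    have h4 := h1 0 h0mem
    linarith
  have h2 := Complex.norm_dslope_le_div_of_mapsTo_ball hd
    (hmap2.mono_right ball_subset_closedBall) h1mem
  have hder : deriv φ 0 = fderiv ℂ g 0 s := by
    have e1 : HasFDerivAt g (fderiv ℂ g 0) ((0 : ℂ) • s) := by
      rw [zero_smul]
      exact (hg.differentiableAt (isOpen_ball.mem_nhds (mem_ball_self hρ))).hasFDerivAt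
    have e2 : HasDerivAt (fun t : ℂ => t • s) s 0 := by
      have := (hasDerivAt_id (0 : ℂ)).smul_const s
      simpa using this
    exact (e1.comp_hasDerivAt (0 : ℂ) e2).deriv
  have h3 : dslope (dslope φ 0) 0 1 = g s - g 0 - fderiv ℂ g 0 s := by
    rw [dslope_of_ne _ one_ne_zero, slope_def_field, dslope_of_ne _ one_ne_zero, slope_def_field,
      dslope_same, hder, hφ0]
    simp [hφ]
  rw [h3] at h2
  refine h2.trans (le_of_eq ?_)
  rw [hR]
  field_simp

lemma DD_succ {k : ℕ} (f : ℕ → (Fin k → ℂ) → ℂ → ℂ) (z : ℕ → ℂ) (n : ℕ) :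
    DD f z (n + 1) = DD f z n * deriv (f n 0) (z n) := by
  unfold DD; rw [Finset.prod_range_succ]

/-- the linear terms -/
noncomputable def ww {k : ℕ} (f : ℕ → (Fin k → ℂ) → ℂ → ℂ) (v : (Fin k → ℂ) → ℂ) (z : ℕ → ℂ)
    (n : ℕ) (s : Fin k → ℂ) : ℂ :=
  fderiv ℂ v 0 s + ∑ j ∈ Finset.range n, fderiv ℂ (fun s => f j s (z j)) 0 s / DD f z (j + 1)

lemma ww_lin {k : ℕ} (f : ℕ → (Fin k → ℂ) → ℂ → ℂ) (v : (Fin k → ℂ) → ℂ) (z : ℕ → ℂ)
    (n : ℕ) (s : Fin k → ℂ) :
    ww f v z n s = ∑ l, s l * ww f v z n (Pi.single l 1) := by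
  have hs : s = ∑ l, s l • (Pi.single l (1 : ℂ) : Fin k → ℂ) := by
    ext j
    rw [Finset.sum_apply, Finset.sum_eq_single j]
    · simp
    · intro l _ hl
      rw [Pi.smul_apply, Pi.single_eq_of_ne (Ne.symm hl)]; simp
    · intro h; exact absurd (Finset.mem_univ _) h
  unfold ww
  have h1 : ∀ L : (Fin k → ℂ) →L[ℂ] ℂ, L s = ∑ l, s l * L (Pi.single l 1) := by
    intro L
    conv_lhs => rw [hs]
    rw [map_sum]
    simp
  simp_rw [mul_add, Finset.sum_add_distrib, Finset.mul_sum]
  rw [h1 (fderiv ℂ v 0), Finset.sum_comm]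
  congr 1
  refine Finset.sum_congr rfl fun j _ => ?_
  rw [h1, Finset.sum_div]
  refine Finset.sum_congr rfl fun l _ => ?_
  rw [mul_div_assoc]

theorem t_FOL : S_FOL := by
  classical
  intro k i f v z x ρ C c μ κ G ε hε
  obtain ⟨hρ, hC1, hc, hμ, hκ, hv0, hvd, hvb, hfz, hfd, hfb, hxx, hdx, hds, hgr, hfn⟩ := G
  have hC0 : 0 < C := by linarith
  -- bounds of the linear terms
  have hlim : ∀ b : Fin k → ℂ, Tendsto (fun n => ww f v z n b) atTop (𝓝 (κ * b i)) := hfn
  obtain ⟨K₀, hK₀, hK₀b⟩ : ∃ K₀ : ℝ, 0 ≤ K₀ ∧ ∀ n s, ‖ww f v z n s‖ ≤ K₀ * ‖s‖ := by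
    have h1 : ∀ l : Fin k, ∃ M : ℝ, 0 ≤ M ∧ ∀ n, ‖ww f v z n (Pi.single l 1)‖ ≤ M := by
      intro l
      obtain ⟨M, hM⟩ := (hlim (Pi.single l 1)).norm.bddAbove_range
      refine ⟨max M 0, le_max_right _ _, fun n => ?_⟩
      exact (hM ⟨n, rfl⟩).trans (le_max_left _ _)
    choose M hM0 hM using h1
    refine ⟨∑ l, M l, Finset.sum_nonneg fun l _ => hM0 l, fun n s => ?_⟩
    rw [ww_lin]
    refine (norm_sum_le _ _).trans ?_
    rw [Finset.sum_mul]
    refine Finset.sum_le_sum fun l _ => ?_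
    rw [norm_mul, mul_comm]
    exact mul_le_mul (hM l n) (norm_le_pi_norm s l) (norm_nonneg _) (hM0 l)
  obtain ⟨N₀, hN₀⟩ : ∃ N₀ : ℕ, ∀ n ≥ N₀, ∀ s : Fin k → ℂ,
      ‖ww f v z n s - κ * s i‖ ≤ ε / 2 * ‖s‖ := by
    have h1 : Tendsto (fun n => ∑ l : Fin k, ‖ww f v z n (Pi.single l 1) -
        κ * (Pi.single l (1 : ℂ) : Fin k → ℂ) i‖) atTop (𝓝 0) := by
      have h2 : Tendsto (fun n => ∑ l : Fin k, ‖ww f v z n (Pi.single l 1) -
        κ * (Pi.single l (1 : ℂ) : Fin k → ℂ) i‖) atTop (𝓝 (∑ l : Fin k, (0 : ℝ))) := by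
        apply tendsto_finsetSum
        intro l _
        have h3 := ((hlim (Pi.single l 1)).sub_const
          (κ * (Pi.single l (1 : ℂ) : Fin k → ℂ) i)).norm
        simpa using h3
      simpa using h2
    obtain ⟨N₀, hN₀⟩ := (h1.eventually (gt_mem_nhds (half_pos hε))).exists_forall_of_atTop
    refine ⟨N₀, fun n hn s => ?_⟩
    have h2 : ww f v z n s - κ * s i = ∑ l, s l * (ww f v z n (Pi.single l 1) -
        κ * (Pi.single l (1 : ℂ) : Fin k → ℂ) i) := by
      simp_rw [mul_sub, Finset.sum_sub_distrib]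
      rw [← ww_lin]
      congr 1
      rw [Finset.sum_eq_single i]
      · simp [mul_comm]
      · intro l _ hl
        rw [Pi.single_eq_of_ne (Ne.symm hl)]; simp
      · intro h; exact absurd (Finset.mem_univ _) h
    rw [h2]
    refine (norm_sum_le _ _).trans ?_
    have h3 : ∀ l ∈ (Finset.univ : Finset (Fin k)), ‖s l * (ww f v z n (Pi.single l 1) -
        κ * (Pi.single l (1 : ℂ) : Fin k → ℂ) i)‖ ≤ ‖s‖ * ‖ww f v z n (Pi.single l 1) -
        κ * (Pi.single l (1 : ℂ) : Fin k → ℂ) i‖ := by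
      intro l _
      rw [norm_mul]
      exact mul_le_mul_of_nonneg_right (norm_le_pi_norm s l) (norm_nonneg _)
    refine (Finset.sum_le_sum h3).trans ?_
    rw [← Finset.mul_sum, mul_comm]
    exact mul_le_mul_of_nonneg_right (hN₀ n hn).le (norm_nonneg _)
  -- derivatives along the orbit
  have hDc : ∀ n, c ≤ ‖DD f z n‖ := by
    intro n
    refine le_trans ?_ (hgr n)
    exact le_mul_of_one_le_right hc.le (one_le_pow₀ hμ.le)
  have hDpos : ∀ n, 0 < ‖DD f z n‖ := fun n => lt_of_lt_of_le hc (hDc n)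
  have hD0 : ∀ n, DD f z n ≠ 0 := fun n => norm_pos_iff.1 (hDpos n)
  obtain ⟨S0, hS0, hS0b⟩ : ∃ S0 : ℝ, 0 ≤ S0 ∧ ∀ n, ∑ j ∈ Finset.range n,
      ‖DD f z (j + 1)‖⁻¹ ≤ S0 := by
    have hsum : Summable fun j : ℕ => c⁻¹ * (μ⁻¹) ^ j :=
      (summable_geometric_of_lt_one (by positivity) (inv_lt_one_of_one_lt₀ hμ)).mul_left _
    refine ⟨∑' j : ℕ, c⁻¹ * (μ⁻¹) ^ j, tsum_nonneg fun j => by positivity, fun n => ?_⟩
    refine le_trans (Finset.sum_le_sum fun j _ => ?_)
      (hsum.sum_le_tsum (Finset.range n) fun j _ => by positivity)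
    have h1 : c * μ ^ j ≤ ‖DD f z (j + 1)‖ := by
      refine le_trans ?_ (hgr (j + 1))
      apply mul_le_mul_of_nonneg_left _ hc.le
      exact pow_le_pow_right₀ hμ.le (Nat.le_succ j)
    rw [inv_pow, ← mul_inv]
    exact inv_anti₀ (by positivity) h1
  -- constants
  set C' : ℝ := (2 * (2 * C + 1) / ρ + 1) / ρ with hC'
  have hC'0 : 0 < C' := by positivity
  set K : ℝ := K₀ + 1 with hK
  have hK0 : 0 < K := by linarith
  set A : ℝ := 1 / c + K with hA
  have hA0 : 0 < A := by positivity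
  set δ : ℝ := min (ε / 2) 1 with hδ
  have hδ0 : 0 < δ := lt_min (by linarith) one_pos
  have hδε : δ ≤ ε / 2 := min_le_left _ _
  have hδ1 : δ ≤ 1 := min_le_right _ _
  set θ : ℝ := min (1 / (C * A)) (min (ρ / (2 * K)) (δ / (2 * (C * K * A)))) with hθ
  have hθ0 : 0 < θ := lt_min (by positivity) (lt_min (by positivity) (by positivity))
  have hθ1 : A * θ ≤ 1 / C := by
    have h1 : θ ≤ 1 / (C * A) := min_le_left _ _
    calc A * θ ≤ A * (1 / (C * A)) := mul_le_mul_of_nonneg_left h1 hA0.le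
      _ = 1 / C := by field_simp
  have hθ2 : K * θ < ρ := by
    have h1 : θ ≤ ρ / (2 * K) := (min_le_right _ _).trans (min_le_left _ _)
    calc K * θ ≤ K * (ρ / (2 * K)) := mul_le_mul_of_nonneg_left h1 hK0.le
      _ = ρ / 2 := by field_simp
      _ < ρ := by linarith
  have hθ3 : C * K * A * θ ≤ δ / 2 := by
    have h1 : θ ≤ δ / (2 * (C * K * A)) := (min_le_right _ _).trans (min_le_right _ _)
    calc C * K * A * θ ≤ C * K * A * (δ / (2 * (C * K * A))) :=
          mul_le_mul_of_nonneg_left h1 (by positivity)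
      _ = δ / 2 := by field_simp
  set r₀ : ℝ := min ρ (δ / (2 * (C' * (1 + S0)))) with hr₀
  have hr₀0 : 0 < r₀ := lt_min hρ (by positivity)
  have hr₀ρ : r₀ ≤ ρ := min_le_left _ _
  have hr₀δ : C' * (1 + S0) * r₀ ≤ δ / 2 := by
    have h1 : r₀ ≤ δ / (2 * (C' * (1 + S0))) := min_le_right _ _
    calc C' * (1 + S0) * r₀ ≤ C' * (1 + S0) * (δ / (2 * (C' * (1 + S0)))) :=
          mul_le_mul_of_nonneg_left h1 (by positivity)
      _ = δ / 2 := by field_simp
  refine ⟨θ, hθ0, r₀, hr₀0, N₀, ?_⟩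
  intro r N hr hrr hN hsumθ
  have hball : ball (0 : Fin k → ℂ) r ⊆ ball 0 ρ := ball_subset_ball (hrr.trans hr₀ρ)
  have hterm0 : ∀ n, 0 ≤ r * ‖DD f z n‖ / x n := fun n =>
    div_nonneg (mul_nonneg hr.le (norm_nonneg _)) (hxx n).1.le
  have hterm : ∀ n < N, r * ‖DD f z n‖ / x n ≤ θ := fun n hn =>
    (Finset.single_le_sum (f := fun n => r * ‖DD f z n‖ / x n) (fun n _ => hterm0 n)
      (Finset.mem_range.2 hn)).trans hsumθ
  have hpart : ∀ n ≤ N, ∑ j ∈ Finset.range n, r * ‖DD f z j‖ / x j ≤ θ := fun n hn =>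
    (Finset.sum_le_sum_of_subset_of_nonneg (Finset.range_mono hn) fun j _ _ => hterm0 j).trans
      hsumθ
  set Bd : ℕ → ℝ := fun n => C' * r ^ 2 * (1 + ∑ j ∈ Finset.range n, ‖DD f z (j + 1)‖⁻¹) +
    C * K * A * r * ∑ j ∈ Finset.range n, r * ‖DD f z j‖ / x j with hBd
  have hBdle : ∀ n ≤ N, Bd n ≤ δ * r := by
    intro n hn
    have h1 : C' * r ^ 2 * (1 + ∑ j ∈ Finset.range n, ‖DD f z (j + 1)‖⁻¹) ≤ δ / 2 * r := by
      calc C' * r ^ 2 * (1 + ∑ j ∈ Finset.range n, ‖DD f z (j + 1)‖⁻¹)
          ≤ C' * r ^ 2 * (1 + S0) := by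
            apply mul_le_mul_of_nonneg_left _ (by positivity)
            linarith [hS0b n]
        _ = C' * (1 + S0) * r * r := by ring
        _ ≤ C' * (1 + S0) * r₀ * r := by
            apply mul_le_mul_of_nonneg_right _ hr.le
            exact mul_le_mul_of_nonneg_left hrr (by positivity)
        _ ≤ δ / 2 * r := mul_le_mul_of_nonneg_right hr₀δ hr.le
    have h2 : C * K * A * r * ∑ j ∈ Finset.range n, r * ‖DD f z j‖ / x j ≤ δ / 2 * r := by
      calc C * K * A * r * ∑ j ∈ Finset.range n, r * ‖DD f z j‖ / x j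
          ≤ C * K * A * r * θ := mul_le_mul_of_nonneg_left (hpart n hn) (by positivity)
        _ = C * K * A * θ * r := by ring
        _ ≤ δ / 2 * r := mul_le_mul_of_nonneg_right hθ3 hr.le
    simp only [hBd]
    linarith
  -- the main induction
  have hmain : ∀ s ∈ ball (0 : Fin k → ℂ) r, ∀ n ≤ N,
      ‖(YY f v n s - z n) / DD f z n - ww f v z n s‖ ≤ Bd n := by
    intro s hs
    have hsr : ‖s‖ < r := by simpa using hs
    have hsρ : s ∈ ball (0 : Fin k → ℂ) ρ := hball hs
    have h0ρ : (0 : Fin k → ℂ) ∈ ball (0 : Fin k → ℂ) ρ := mem_ball_self hρ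
    have hs2 : ‖s‖ ^ 2 ≤ r ^ 2 := pow_le_pow_left₀ (norm_nonneg _) hsr.le 2
    intro n
    induction n with
    | zero =>
      intro _
      have h1 := taylor2 v ρ C hρ hvd hvb s hsρ
      have h2 : (YY f v 0 s - z 0) / DD f z 0 - ww f v z 0 s = v s - v 0 - fderiv ℂ v 0 s := by
        rw [hv0]
        simp [YY, DD, ww]
      rw [h2]
      refine h1.trans ?_
      simp only [hBd, Finset.sum_range_zero, mul_zero, add_zero, mul_one]
      exact mul_le_mul_of_nonneg_left hs2 hC'0.le
    | succ n ih =>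
      intro hn
      have hnN : n < N := hn
      have ih' := ih hnN.le
      set u : ℂ := YY f v n s - z n with hu
      have hub : ‖u‖ ≤ K * (r * ‖DD f z n‖) := by
        have h1 : u = DD f z n * ((u / DD f z n - ww f v z n s) + ww f v z n s) := by
          have := hD0 n
          field_simp
          ring
        rw [h1, norm_mul]
        have h2 : ‖(u / DD f z n - ww f v z n s) + ww f v z n s‖ ≤ K * r := by
          refine (norm_add_le _ _).trans ?_
          have h3 := hK₀b n s
          have h4 : K₀ * ‖s‖ ≤ K₀ * r := mul_le_mul_of_nonneg_left hsr.le hK₀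
          have h5 := hBdle n hnN.le
          have h6 : δ * r ≤ 1 * r := mul_le_mul_of_nonneg_right hδ1 hr.le
          have h7 : K * r = K₀ * r + 1 * r := by rw [hK]; ring
          linarith
        calc ‖DD f z n‖ * ‖(u / DD f z n - ww f v z n s) + ww f v z n s‖
            ≤ ‖DD f z n‖ * (K * r) := mul_le_mul_of_nonneg_left h2 (norm_nonneg _)
          _ = K * (r * ‖DD f z n‖) := by ring
      have hrD : ‖s‖ ≤ 1 / c * (r * ‖DD f z n‖) := by
        have h1 : r * c ≤ r * ‖DD f z n‖ := mul_le_mul_of_nonneg_left (hDc n) hr.le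
        calc ‖s‖ ≤ r := hsr.le
          _ = 1 / c * (r * c) := by field_simp
          _ ≤ 1 / c * (r * ‖DD f z n‖) := mul_le_mul_of_nonneg_left h1 (by positivity)
      have hsu : ‖s‖ + ‖u‖ ≤ A * (r * ‖DD f z n‖) := by
        rw [hA, add_mul]; exact add_le_add hrD hub
      have hxn := hxx n
      have hsux : (‖s‖ + ‖u‖) / x n ≤ A * (r * ‖DD f z n‖ / x n) := by
        rw [← mul_div_assoc]
        exact div_le_div_of_nonneg_right hsu hxn.1.le
      have hsuC : ‖s‖ + ‖u‖ ≤ x n / C := by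
        have h1 : (‖s‖ + ‖u‖) / x n ≤ 1 / C :=
          hsux.trans ((mul_le_mul_of_nonneg_left (hterm n hnN) hA0.le).trans hθ1)
        rw [div_le_iff₀ hxn.1] at h1
        calc ‖s‖ + ‖u‖ ≤ 1 / C * x n := h1
          _ = x n / C := by ring
      have huρ : ‖u‖ < ρ := by
        have h1 : r * ‖DD f z n‖ ≤ θ := by
          have h2 := hterm n hnN
          rw [div_le_iff₀ hxn.1] at h2
          exact h2.trans (mul_le_of_le_one_right hθ0.le hxn.2)
        calc ‖u‖ ≤ K * (r * ‖DD f z n‖) := hub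
          _ ≤ K * θ := mul_le_mul_of_nonneg_left h1 hK0.le
          _ < ρ := hθ2
      have hznρ : z n ∈ ball (z n) ρ := mem_ball_self hρ
      have hopen : IsOpen (ball (0 : Fin k → ℂ) ρ ×ˢ ball (z n) ρ) :=
        isOpen_ball.prod isOpen_ball
      -- first bracket
      have hb1 : ‖f n s (z n) - f n 0 (z n) - fderiv ℂ (fun s => f n s (z n)) 0 s‖ ≤
          C' * r ^ 2 := by
        have h1 : DifferentiableOn ℂ (fun s => f n s (z n)) (ball 0 ρ) := by
          have h2 : DifferentiableOn ℂ (fun s : Fin k → ℂ => (s, z n)) (ball 0 ρ) :=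
            differentiableOn_id.prodMk (differentiableOn_const _)
          exact (hfd n).comp h2 fun s hs => ⟨hs, hznρ⟩
        have h2 := taylor2 (fun s => f n s (z n)) ρ C hρ h1
          (fun s hs => hfb n s hs (z n) hznρ) s hsρ
        exact h2.trans (mul_le_mul_of_nonneg_left hs2 hC'0.le)
      -- second bracket
      have hb2 : ‖f n s (z n + u) - f n s (z n) - deriv (f n 0) (z n) * u‖ ≤
          C * ‖deriv (f n 0) (z n)‖ * ((‖s‖ + ‖u‖) / x n) * ‖u‖ := by
        have hdiff : ∀ w ∈ closedBall (z n) ‖u‖, DifferentiableAt ℂ (f n s) w := by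
          intro w hw
          have hwρ : w ∈ ball (z n) ρ := lt_of_le_of_lt (mem_closedBall.1 hw) huρ
          have h1 : DifferentiableAt ℂ (fun p : (Fin k → ℂ) × ℂ => f n p.1 p.2) (s, w) :=
            (hfd n).differentiableAt (hopen.mem_nhds ⟨hsρ, hwρ⟩)
          have h2 : DifferentiableAt ℂ (fun w : ℂ => (s, w)) w :=
            (differentiableAt_const s).prodMk differentiableAt_id
          exact DifferentiableAt.comp (f := fun w : ℂ => (s, w)) w h1 h2
        have h1 := Convex.norm_image_sub_le_of_norm_deriv_le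
          (f := fun w => f n s w - deriv (f n 0) (z n) * w)
          (C := C * ‖deriv (f n 0) (z n)‖ * ((‖s‖ + ‖u‖) / x n))
          (s := closedBall (z n) ‖u‖) (x := z n) (y := z n + u)
          (fun w hw => (hdiff w hw).sub (differentiableAt_id.const_mul _))
          (by
            intro w hw
            have hwρ : w ∈ ball (z n) ρ := lt_of_le_of_lt (mem_closedBall.1 hw) huρ
            have hwn : ‖w - z n‖ ≤ ‖u‖ := by
              rw [← dist_eq_norm]; exact mem_closedBall.1 hw
            have h2 : deriv (fun w => f n s w - deriv (f n 0) (z n) * w) w =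
                deriv (f n s) w - deriv (f n 0) (z n) := by
              have h3 : HasDerivAt (fun w => f n s w - deriv (f n 0) (z n) * w)
                  (deriv (f n s) w - deriv (f n 0) (z n) * 1) w :=
                (hdiff w hw).hasDerivAt.sub ((hasDerivAt_id w).const_mul _)
              rw [h3.deriv, mul_one]
            rw [h2]
            refine (hds n s hsρ w hwρ ?_).trans ?_
            · linarith
            · apply mul_le_mul_of_nonneg_left _ (by positivity)
              exact div_le_div_of_nonneg_right (by linarith) hxn.1.le)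
          (convex_closedBall _ _) (mem_closedBall_self (norm_nonneg _))
          (by rw [mem_closedBall, dist_eq_norm, add_sub_cancel_left])
        have h3 : (f n s (z n + u) - deriv (f n 0) (z n) * (z n + u)) -
            (f n s (z n) - deriv (f n 0) (z n) * z n) =
            f n s (z n + u) - f n s (z n) - deriv (f n 0) (z n) * u := by ring
        simp only [add_sub_cancel_left] at h1
        rw [h3] at h1
        exact h1
      have hYn : YY f v n s = z n + u := by rw [hu]; ring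
      have hstep : (YY f v (n + 1) s - z (n + 1)) / DD f z (n + 1) - ww f v z (n + 1) s =
          (u / DD f z n - ww f v z n s) +
          ((f n s (z n) - f n 0 (z n) - fderiv ℂ (fun s => f n s (z n)) 0 s) +
            (f n s (z n + u) - f n s (z n) - deriv (f n 0) (z n) * u)) / DD f z (n + 1) := by
        have h1 : YY f v (n + 1) s = f n s (z n + u) := by
          rw [← hYn]; rfl
        have h2 : ww f v z (n + 1) s = ww f v z n s +
            fderiv ℂ (fun s => f n s (z n)) 0 s / DD f z (n + 1) := by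
          unfold ww
          rw [Finset.sum_range_succ, add_assoc]
        have h3 : u / DD f z n = deriv (f n 0) (z n) * u / DD f z (n + 1) := by
          rw [DD_succ]
          have h4 := hD0 n
          have h5 := (hdx n).1
          field_simp
        rw [h1, h2, h3, ← hfz n]
        have h6 := hD0 (n + 1)
        field_simp
        ring
      rw [hstep]
      refine (norm_add_le _ _).trans ?_
      rw [norm_div]
      have hlast : ‖(f n s (z n) - f n 0 (z n) - fderiv ℂ (fun s => f n s (z n)) 0 s) +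
            (f n s (z n + u) - f n s (z n) - deriv (f n 0) (z n) * u)‖ / ‖DD f z (n + 1)‖ ≤
          C' * r ^ 2 * ‖DD f z (n + 1)‖⁻¹ + C * K * A * r * (r * ‖DD f z n‖ / x n) := by
        rw [div_le_iff₀ (hDpos (n + 1)), add_mul]
        refine (norm_add_le _ _).trans (add_le_add ?_ ?_)
        · rw [mul_assoc, inv_mul_cancel₀ (hDpos (n + 1)).ne', mul_one]
          exact hb1
        · refine hb2.trans ?_
          rw [DD_succ, norm_mul]
          have hd0 : 0 ≤ ‖deriv (f n 0) (z n)‖ := norm_nonneg _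
          calc C * ‖deriv (f n 0) (z n)‖ * ((‖s‖ + ‖u‖) / x n) * ‖u‖
              ≤ C * ‖deriv (f n 0) (z n)‖ * (A * (r * ‖DD f z n‖ / x n)) *
                (K * (r * ‖DD f z n‖)) := by
                apply mul_le_mul _ hub (norm_nonneg _)
                · exact mul_nonneg (by positivity) (mul_nonneg hA0.le (hterm0 n))
                · exact mul_le_mul_of_nonneg_left hsux (by positivity)
            _ = C * K * A * r * (r * ‖DD f z n‖ / x n) *
                (‖DD f z n‖ * ‖deriv (f n 0) (z n)‖) := by ring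
      have hBs : Bd (n + 1) = Bd n + (C' * r ^ 2 * ‖DD f z (n + 1)‖⁻¹ +
          C * K * A * r * (r * ‖DD f z n‖ / x n)) := by
        simp only [hBd]
        rw [Finset.sum_range_succ, Finset.sum_range_succ]
        ring
      rw [hBs]
      exact add_le_add ih' hlast
  -- consequences
  have hub : ∀ s ∈ ball (0 : Fin k → ℂ) r, ∀ n < N, ‖YY f v n s - z n‖ < ρ := by
    intro s hs n hnN
    have hsr : ‖s‖ < r := by simpa using hs
    have h1 : YY f v n s - z n = DD f z n * (((YY f v n s - z n) / DD f z n - ww f v z n s) +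
        ww f v z n s) := by
      have := hD0 n
      field_simp
      ring
    have h2 : ‖((YY f v n s - z n) / DD f z n - ww f v z n s) + ww f v z n s‖ ≤ K * r := by
      refine (norm_add_le _ _).trans ?_
      have h3 := hK₀b n s
      have h4 : K₀ * ‖s‖ ≤ K₀ * r := mul_le_mul_of_nonneg_left hsr.le hK₀
      have h5 := hBdle n hnN.le
      have h6 : δ * r ≤ 1 * r := mul_le_mul_of_nonneg_right hδ1 hr.le
      have h7 : K * r = K₀ * r + 1 * r := by rw [hK]; ring
      have h8 := hmain s hs n hnN.le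
      linarith
    have h3 : r * ‖DD f z n‖ ≤ θ := by
      have h2 := hterm n hnN
      rw [div_le_iff₀ (hxx n).1] at h2
      exact h2.trans (mul_le_of_le_one_right hθ0.le (hxx n).2)
    rw [h1, norm_mul]
    calc ‖DD f z n‖ * ‖((YY f v n s - z n) / DD f z n - ww f v z n s) + ww f v z n s‖
        ≤ ‖DD f z n‖ * (K * r) := mul_le_mul_of_nonneg_left h2 (norm_nonneg _)
      _ = K * (r * ‖DD f z n‖) := by ring
      _ ≤ K * θ := mul_le_mul_of_nonneg_left h3 hK0.le
      _ < ρ := hθ2
  refine ⟨?_, fun s hs => ⟨hub s hs, ?_⟩⟩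
  · have hdn : ∀ n ≤ N, DifferentiableOn ℂ (YY f v n) (ball 0 r) := by
      intro n
      induction n with
      | zero => intro _; exact hvd.mono hball
      | succ n ih =>
        intro hn
        have h1 : DifferentiableOn ℂ (fun s : Fin k → ℂ => (s, YY f v n s)) (ball 0 r) :=
          differentiableOn_id.prodMk (ih (by omega))
        exact (hfd n).comp h1 fun s hs => ⟨hball hs, by
          rw [mem_ball, dist_eq_norm]
          exact hub s hs n (by omega)⟩
    exact hdn N le_rfl
  · have hsr : ‖s‖ < r := by simpa using hs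
    have h1 := hmain s hs N le_rfl
    have h2 := hN₀ N hN s
    have h3 : YY f v N s - z N - κ * DD f z N * s i = DD f z N *
        (((YY f v N s - z N) / DD f z N - ww f v z N s) + (ww f v z N s - κ * s i)) := by
      have := hD0 N
      field_simp
      ring
    rw [h3, norm_mul, mul_comm]
    apply mul_le_mul_of_nonneg_right _ (norm_nonneg _)
    refine (norm_add_le _ _).trans ?_
    have h4 := hBdle N le_rfl
    have h5 : δ * r ≤ ε / 2 * r := mul_le_mul_of_nonneg_right hδε hr.le
    have h6 : ε / 2 * ‖s‖ ≤ ε / 2 * r := mul_le_mul_of_nonneg_left hsr.le (by linarith)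
    linarith

end Pool.Agent.H720.HY211
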